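import Pool.Agent.U198.SD.Bnd3

/-!
There is a klt Fano variety (of dimension two) whose special degenerations are not bounded.
The variety is the projective plane, which degenerates to the weighted projective planes
`P(1, b², c²)`, where `b, c` are consecutive Fibonacci numbers of odd index.
-/

open Pool.Agent.Helper774.KSing Pool.Agent.U198.SD

namespace Pool.Agent.Results.MP_ba5bc1_ag.UnboundedSpecialDegenerations

theorem result : ∃ X : Variety, X.dim = 2 ∧ X.IsFano ∧ X.IsKlt ∧
    ¬ IsBounded {Y : Variety | SpecialDegeneratesTo X Y} := by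
  obtain ⟨K, _, _, ⟨T⟩⟩ := Pool.Agent.Helper774.KStab.exists_torusField 2
  exact ⟨PP T, rfl, toric_isFano _ _, toric_klt _ _, not_bounded T⟩

end Pool.Agent.Results.MP_ba5bc1_ag.UnboundedSpecialDegenerations
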